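import Pool.Agent.K3h63.IQ.Stm2

/-!
# The unit `∑ χ(g⁻¹) g` of the image of the group algebra
-/

set_option autoImplicit false

open CategoryTheory Limits MonoidalCategory
open Pool.Agent.Y112.SR Pool.Agent.Y112.KD Pool.Agent.Y112.SC Pool.Agent.R905

namespace Pool.Agent.K3h86.IQ

open Pool.Agent.K3h63.IQ

universe v u w

/-- An element annihilated by a polynomial with nonzero constant term is a unit. -/
lemma isUnit_of_aeval {A : Type*} [Ring A] [Algebra ℚ A] (κ : A) (F : Polynomial ℚ)
    (h0 : F.coeff 0 ≠ 0) (h : Polynomial.aeval κ F = 0) : IsUnit κ := by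
  have h1 := congrArg (Polynomial.aeval κ) (Polynomial.divX_mul_X_add F)
  rw [h, map_add, map_mul, Polynomial.aeval_X, Polynomial.aeval_C] at h1
  have h2 : Commute (Polynomial.aeval κ F.divX) κ := by
    have h3 : Polynomial.aeval κ (F.divX * Polynomial.X) =
        Polynomial.aeval κ (Polynomial.X * F.divX) := by
      rw [mul_comm]
    rw [map_mul, map_mul, Polynomial.aeval_X] at h3
    exact h3
  have h4 : Polynomial.aeval κ F.divX * κ = algebraMap ℚ A (-F.coeff 0) := by
    rw [map_neg]
    exact eq_neg_of_add_eq_zero_left h1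
  have h5 : IsUnit (Polynomial.aeval κ F.divX * κ) := by
    rw [h4]
    exact (isUnit_iff_ne_zero.2 (neg_ne_zero.2 h0)).map (algebraMap ℚ A)
  exact (h2.isUnit_mul_iff.1 h5).2

/-- Polynomials in elements of the image of the group algebra lie in this image. -/
lemma aeval_mem {A G : Type*} [Ring A] [Algebra ℚ A] [Group G] (ρ : G →* A) (F : Polynomial ℚ)
    (κ : A) (hκ : κ ∈ Submodule.span ℚ (Set.range fun g : G => ρ g)) :
    Polynomial.aeval κ F ∈ Submodule.span ℚ (Set.range fun g : G => ρ g) := by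
  have h1 : Subalgebra.toSubmodule (Algebra.adjoin ℚ (Set.range fun g : G => ρ g)) =
      Submodule.span ℚ (Set.range fun g : G => ρ g) := by
    have h2 : (Set.range fun g : G => ρ g) = (MonoidHom.mrange ρ : Set A) :=
      (MonoidHom.coe_mrange ρ).symm
    rw [Algebra.adjoin_eq_span, h2, Submonoid.closure_eq]
  rw [← h1, Subalgebra.mem_toSubmodule] at hκ ⊢
  exact Algebra.adjoin_le (Set.singleton_subset_iff.2 hκ)
    (Polynomial.aeval_mem_adjoin_singleton ℚ κ)

/-- The constant term of a polynomial with positive roots. -/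
lemma coeff_ne {s : Multiset ℚ} (hs : ∀ r ∈ s, 0 < r) :
    ((s.map fun r : ℚ => (Polynomial.X - Polynomial.C r : Polynomial ℚ)).prod).coeff 0 ≠ 0 := by
  rw [Polynomial.coeff_zero_eq_eval_zero, Polynomial.eval_multiset_prod, Multiset.map_map]
  refine Multiset.prod_ne_zero ?_
  intro h
  obtain ⟨r, hr, h0⟩ := Multiset.mem_map.1 h
  have := hs r hr
  simp at h0
  linarith

theorem t_UNIT2 (hEIG : S_EIG.{w}) : S_UNIT2.{v, u, w} := by
  intro C _ _ _ _ _ _ _ K _ R G _ _ M ρ ψ hψ hinj
  have hc := R_charZero R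
  have hfin := R.finite M
  let φ : End M →+* Module.End K (R.H.obj M) :=
    { toFun := fun f => (R.H.map (f : M ⟶ M)).hom
      map_one' := by
        change (R.H.map (𝟙 M)).hom = 1
        rw [CategoryTheory.Functor.map_id]
        rfl
      map_mul' := fun f g => by
        rw [End.mul_def, Functor.map_comp]
        rfl
      map_zero' := by
        change (R.H.map (0 : M ⟶ M)).hom = 0
        rw [R.H.map_zero]
        rfl
      map_add' := fun f g => by
        have h := R.H.map_add (f := (f : M ⟶ M)) (g := g)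
        exact congrArg ModuleCat.Hom.hom h }
  have hφ : ∀ f : End M, φ f = (R.H.map (f : M ⟶ M)).hom := fun f => rfl
  obtain ⟨s, hs, h1⟩ := hEIG K (R.H.obj M) G (φ.toMonoidHom.comp ρ)
  set κ : End M := ∑ g, ψ g • ρ g with hκ
  set F : Polynomial ℚ := (s.map fun r : ℚ => (Polynomial.X - Polynomial.C r : Polynomial ℚ)).prod
    with hF
  have h2 : (∑ g : G, LinearMap.trace K (R.H.obj M) ((φ.toMonoidHom.comp ρ) g⁻¹) •
      (φ.toMonoidHom.comp ρ) g) = φ κ := by
    rw [hκ, map_sum]
    refine Finset.sum_congr rfl fun g _ => ?_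
    rw [hφ]
    have h3 := R_smul R (ψ g) ((ρ g : End M) : M ⟶ M)
    have h4 : (R.H.map ((ψ g • ρ g : End M) : M ⟶ M)) =
        (ψ g : K) • R.H.map ((ρ g : End M) : M ⟶ M) := h3
    rw [h4, hψ g]
    rfl
  rw [h2] at h1
  have h3 : (s.map fun r : ℚ => (Polynomial.X - Polynomial.C (r : K) : Polynomial K)).prod =
      F.map (algebraMap ℚ K) := by
    rw [hF, Polynomial.map_multiset_prod, Multiset.map_map]
    congr 1
    refine Multiset.map_congr rfl fun r _ => ?_
    simp
  rw [h3, Polynomial.aeval_def, Polynomial.eval₂_map] at h1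
  have h4 : φ (Polynomial.aeval κ F) = 0 := by
    rw [Polynomial.aeval_def, Polynomial.hom_eval₂,
      RingHom.ext_rat (φ.comp (algebraMap ℚ (End M)))
        ((algebraMap K (Module.End K (R.H.obj M))).comp (algebraMap ℚ K))]
    exact h1
  have h5 : κ ∈ Submodule.span ℚ (Set.range fun g : G => (ρ g : End M)) := by
    rw [hκ]
    exact Submodule.sum_mem _ fun g _ => Submodule.smul_mem _ _ (Submodule.subset_span ⟨g, rfl⟩)
  have h6 : Polynomial.aeval κ F = 0 := by
    refine hinj _ (aeval_mem ρ F κ h5) ?_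
    exact ModuleCat.hom_ext h4
  exact isUnit_of_aeval κ F (coeff_ne hs) h6

end Pool.Agent.K3h86.IQ
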